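import Pool.Agent.H34.GA.Targets1
import Pool.Agent.H34.GM.MEL
import Pool.Agent.H34.GM.THC

/-!
Row GLA of the board ga: the L-function is entire.
-/

set_option autoImplicit false

namespace Pool.Agent.H17.GA.GLA

open MeasureTheory Filter Topology Pool.Agent.H34.GM Pool.Agent.H34.GZ Pool.Agent.H34.GU
  Pool.Agent.H34.GA

variable {m : ℕ} {ψ : ℝ → ℂ} {lam : ℕ → ℂ}

theorem thA_cont (hm1 : 1 ≤ m) (hcont : ContinuousOn ψ (Set.Ioi 0)) {c : ℝ} (hc : 0 < c)
    (hs : ∀ r : ℝ, 0 < r → ψ r ≠ 0 → c⁻¹ ≤ r) :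
    ContinuousOn (thA m ψ lam) (Set.Ioi 0) ∧
      ∃ r0 : ℝ, 0 < r0 ∧ ∀ r : ℝ, 0 < r → r < r0 → thA m ψ lam r = 0 := by
  have hz : ∀ r : ℝ, 0 < r → ∀ n : ℕ, 1 ≤ n → r * (n : ℝ) ^ (-(1 / (m : ℝ))) < c⁻¹ →
      ψ (r * (n : ℝ) ^ (-(1 / (m : ℝ)))) = 0 := by
    intro r hr n hn hlt
    by_contra hne
    have hn0 : (0 : ℝ) < n := by exact_mod_cast hn
    exact absurd (hs _ (mul_pos hr (Real.rpow_pos_of_pos hn0 _)) hne) (not_le.2 hlt)
  constructor
  · intro r1 hr1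
    have hr1' : (0 : ℝ) < r1 := hr1
    obtain ⟨K, hK⟩ := exists_nat_gt ((c * (r1 + 1)) ^ m)
    have hb : 0 < r1 + 1 := by linarith
    have hfin : ∀ r ∈ Set.Ioo (0 : ℝ) (r1 + 1), thA m ψ lam r =
        ∑ n ∈ Finset.range K, if 1 ≤ n then
          (n : ℂ) ^ (((m : ℂ) - 1) / 2) * lam n * ψ (r * (n : ℝ) ^ (-(1 / (m : ℝ))))
          else 0 := by
      intro r hr
      refine tsum_eq_sum fun n hn => ?_
      by_cases hc1 : 1 ≤ n
      · rw [if_pos hc1]
        have hKn : K ≤ n := by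
          by_contra h
          exact hn (Finset.mem_range.2 (not_le.1 h))
        have h2 : (c * (r1 + 1)) ^ m < (n : ℝ) :=
          hK.trans_le (by exact_mod_cast hKn)
        rw [hz r hr.1 n hc1 (thc_small hm1 hc hb hr.2 h2), mul_zero]
      · rw [if_neg hc1]
    have hco : ContinuousOn (thA m ψ lam) (Set.Ioo (0 : ℝ) (r1 + 1)) := by
      refine ContinuousOn.congr ?_ hfin
      refine continuousOn_finsetSum _ fun n _ => ?_
      by_cases hc1 : 1 ≤ n
      · simp only [if_pos hc1]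
        refine continuousOn_const.mul ?_
        refine hcont.comp (continuousOn_id.mul continuousOn_const) ?_
        intro r hr
        have hn0 : (0 : ℝ) < n := by exact_mod_cast hc1
        exact mul_pos hr.1 (Real.rpow_pos_of_pos hn0 _)
      · simp only [if_neg hc1]
        exact continuousOn_const
    exact (hco.continuousAt (Ioo_mem_nhds hr1' (by linarith))).continuousWithinAt
  · refine ⟨c⁻¹, inv_pos.2 hc, fun r hr hrc => ?_⟩
    have : ∀ n : ℕ, (if 1 ≤ n then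
        (n : ℂ) ^ (((m : ℂ) - 1) / 2) * lam n * ψ (r * (n : ℝ) ^ (-(1 / (m : ℝ))))
        else 0) = 0 := by
      intro n
      by_cases hc1 : 1 ≤ n
      · rw [if_pos hc1]
        have hn0 : (1 : ℝ) ≤ n := by exact_mod_cast hc1
        have hle : (n : ℝ) ^ (-(1 / (m : ℝ))) ≤ 1 :=
          Real.rpow_le_one_of_one_le_of_nonpos hn0 (by
            have : (0 : ℝ) ≤ 1 / (m : ℝ) := by positivity
            linarith)
        have : r * (n : ℝ) ^ (-(1 / (m : ℝ))) < c⁻¹ :=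
          lt_of_le_of_lt (mul_le_of_le_one_right hr.le hle) hrc
        rw [hz r hr n hc1 this, mul_zero]
      · rw [if_neg hc1]
    unfold thA
    simp only [this, tsum_zero]

/-- rapid decay of the weight itself -/
theorem wc_dec (hcont : ContinuousOn ψ (Set.Ioi 0)) {c : ℝ} (hc : 1 < c)
    (hs : ∀ r : ℝ, 0 < r → ψ r ≠ 0 → r ≤ c) (N : ℕ) :
    ∃ C : ℝ, ∀ r : ℝ, 1 ≤ r → ‖ψ r‖ ≤ C * r ^ (-(N : ℝ)) := by
  obtain ⟨B, hB⟩ := (isCompact_Icc (a := (1 : ℝ)) (b := c)).exists_bound_of_continuousOn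
    (hcont.mono fun r hr => lt_of_lt_of_le one_pos hr.1)
  refine ⟨|B| * c ^ N, fun r hr => ?_⟩
  have hr0 : 0 < r := by linarith
  by_cases h : ψ r = 0
  · rw [h, norm_zero]
    positivity
  · have hrc := hs r hr0 h
    have h1 : ‖ψ r‖ ≤ |B| := (hB r ⟨hr, hrc⟩).trans (le_abs_self B)
    refine h1.trans ?_
    rw [mul_assoc]
    refine le_mul_of_one_le_right (abs_nonneg B) ?_
    rw [Real.rpow_neg hr0.le, Real.rpow_natCast, ← div_eq_mul_inv, one_le_div (pow_pos hr0 _)]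
    exact pow_le_pow_left₀ hr0.le hrc N

/-- the Mellin transform in the region of absolute convergence -/
theorem mel (hm : 1 ≤ m) {C : ℝ} (hC : ∀ n : ℕ, 1 ≤ n →
      ‖(n : ℂ) ^ (((m : ℂ) - 1) / 2) * lam n‖ ≤ C * (n : ℝ) ^ m) {s : ℂ}
    (hs : (m : ℝ) + 2 < s.re)
    (hI : IntegrableOn (fun r : ℝ => ψ r *
      ((r : ℝ) : ℂ) ^ (-((m : ℂ) * (s + ((m : ℂ) - 1) / 2)) - 1)) (Set.Ioi 0)) :
    (Summable fun n : ℕ => if 1 ≤ n ∧ n.Coprime 1 then lam n * (n : ℂ) ^ (-s) else 0) ∧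
    LmA m ψ lam s =
      (∑' n : ℕ, if 1 ≤ n ∧ n.Coprime 1 then lam n * (n : ℂ) ^ (-s) else 0) * MelA m ψ s := by
  set w : ℂ := s + ((m : ℂ) - 1) / 2 with hw
  have hm1 : (1 : ℝ) ≤ m := by exact_mod_cast hm
  have hwre : w.re = s.re + ((m : ℝ) - 1) / 2 := by
    rw [hw, Complex.add_re]
    congr 1
    have : ((m : ℂ) - 1) / 2 = ((((m : ℝ) - 1) / 2 : ℝ) : ℂ) := by push_cast; ring
    rw [this, Complex.ofReal_re]
  -- the coefficients
  set c : ℕ → ℂ := fun n =>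
    if 1 ≤ n then (n : ℂ) ^ (((m : ℂ) - 1) / 2) * lam n else 0
    with hc
  have hcn : ∀ n, ‖c n * (n : ℂ) ^ (-w)‖ ≤ |C| * (n : ℝ) ^ ((m : ℝ) - w.re) := by
    intro n
    simp only [hc]
    split_ifs with h
    · have hn0 : (0 : ℝ) < n := by exact_mod_cast h
      rw [norm_mul, Complex.norm_natCast_cpow_of_pos (by omega), Complex.neg_re,
        show (m : ℝ) - w.re = (m : ℝ) + (-w.re) by ring,
        Real.rpow_add hn0, Real.rpow_natCast, ← mul_assoc]
      refine mul_le_mul_of_nonneg_right ?_ (Real.rpow_nonneg hn0.le _)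
      refine (hC n h).trans ?_
      gcongr
      exact le_abs_self C
    · rw [zero_mul, norm_zero]
      positivity
  have hsum : Summable fun n : ℕ => |C| * (n : ℝ) ^ ((m : ℝ) - w.re) := by
    refine Summable.mul_left _ ?_
    rw [Real.summable_nat_rpow, hwre]
    linarith
  have hterm : ∀ n : ℕ, c n * (n : ℂ) ^ (-w) =
      if 1 ≤ n ∧ n.Coprime 1 then lam n * (n : ℂ) ^ (-s) else 0 := by
    intro n
    simp only [hc]
    by_cases h : 1 ≤ n
    · rw [if_pos h, if_pos ⟨h, Nat.coprime_one_right n⟩]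
      have hnC : (n : ℂ) ≠ 0 := by exact_mod_cast (by omega : n ≠ 0)
      have h1 : (n : ℂ) ^ (-s) = (n : ℂ) ^ (((m : ℂ) - 1) / 2) * (n : ℂ) ^ (-w) := by
        rw [← Complex.cpow_add _ _ hnC]
        congr 1
        rw [hw]
        ring
      rw [h1]
      ring
    · rw [if_neg h, if_neg (fun h' => h h'.1), zero_mul]
  have hS : Summable fun n : ℕ => c n * (n : ℂ) ^ (-w) :=
    Summable.of_norm_bounded hsum hcn
  refine ⟨by simpa only [hterm] using hS, ?_⟩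
  -- the integral
  set e : ℂ := -((m : ℂ) * w) - 1 with he
  set K : ℝ := ∫ r in Set.Ioi (0 : ℝ), ‖ψ r * (r : ℂ) ^ e‖ with hK
  set F : ℕ → ℝ → ℂ := fun n r => c n * ψ (r * (n : ℝ) ^ (-(1 / (m : ℝ)))) * (r : ℂ) ^ e
    with hF
  have hF1 : ∀ n, IntegrableOn (F n) (Set.Ioi 0) ∧
      ∫ r in Set.Ioi (0 : ℝ), F n r = c n * (n : ℂ) ^ (-w) * MelA m ψ s ∧
      ∫ r in Set.Ioi (0 : ℝ), ‖F n r‖ = ‖c n * (n : ℂ) ^ (-w)‖ * K := by
    intro n
    by_cases hn : 1 ≤ n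
    · obtain ⟨h1, h2, h3⟩ := MEL.main hm ψ w hI n hn (c n)
      exact ⟨h1, h2, h3⟩
    · have h0 : c n = 0 := by
        simp only [hc]
        rw [if_neg hn]
      have h1 : F n = fun _ => 0 := by
        funext r
        simp only [hF, h0, zero_mul]
      rw [h1, h0]
      simp
  have hlm : LmA m ψ lam s = ∫ r in Set.Ioi (0 : ℝ), ∑' n, F n r := by
    unfold LmA
    refine integral_congr_ae (Filter.Eventually.of_forall fun r => ?_)
    simp only [thA, hF, hc, ite_mul, zero_mul]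
    rw [← tsum_mul_right]
    refine tsum_congr fun n => ?_
    split_ifs <;> simp [he, hw]
  have hsn : Summable fun n => ∫ r in Set.Ioi (0 : ℝ), ‖F n r‖ := by
    simp only [fun n => (hF1 n).2.2]
    exact (hS.norm).mul_right K
  have hfin := hasSum_integral_of_summable_integral_norm (fun n => (hF1 n).1) hsn
  rw [hlm, ← hfin.tsum_eq]
  simp only [fun n => (hF1 n).2.1]
  rw [tsum_mul_right]
  simp only [hterm]

/-- GLA. The L-function is entire. -/
theorem pf_GLA : T_CON → T_GLA := by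
  intro hCON m lam hm hC hex
  obtain ⟨C0, hC0⟩ := hC
  have gZ : ∀ ψ : ℝ → ℂ, Wc m ψ lam → Differentiable ℂ (MelA m ψ) ∧
      ∀ s : ℂ, IntegrableOn (fun r : ℝ => ψ r *
        ((r : ℝ) : ℂ) ^ (-((m : ℂ) * (s + ((m : ℂ) - 1) / 2)) - 1)) (Set.Ioi 0) := by
    intro ψ h
    obtain ⟨r0, h1, h2⟩ := h.supp
    refine hCON m ψ hm h.cont ⟨r0⁻¹, inv_pos.2 (by linarith), fun r hr hrr => ?_⟩
      (wc_dec h.cont h1 fun r hr hne => (h2 r hr hne).2)
    by_contra hne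
    exact absurd (h2 r hr hne).1 (not_le.2 hrr)
  have gLd : ∀ ψ : ℝ → ℂ, Wc m ψ lam → Differentiable ℂ (LmA m ψ lam) := by
    intro ψ h
    obtain ⟨r0, h1, h2⟩ := h.supp
    have hth := thA_cont (lam := lam) hm h.cont (c := r0) (by linarith)
      fun r hr hne => (h2 r hr hne).1
    exact (hCON m (thA m ψ lam) hm hth.1 hth.2 h.dec).1
  have gM : ∀ ψ : ℝ → ℂ, Wc m ψ lam → ∀ s : ℂ, (m : ℝ) + 2 < s.re →
      (Summable fun n : ℕ => if 1 ≤ n ∧ n.Coprime 1 then lam n * (n : ℂ) ^ (-s) else 0) ∧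
      LmA m ψ lam s =
        (∑' n : ℕ, if 1 ≤ n ∧ n.Coprime 1 then lam n * (n : ℂ) ^ (-s) else 0) *
          MelA m ψ s := fun ψ h s hs => mel hm hC0 hs ((gZ ψ h).2 s)
  -- cross identity
  have hcross : ∀ ψ ψ' : ℝ → ℂ, Wc m ψ lam → Wc m ψ' lam → ∀ s : ℂ,
      LmA m ψ lam s * MelA m ψ' s = LmA m ψ' lam s * MelA m ψ s := by
    intro ψ ψ' h h' s
    have hf : Differentiable ℂ (fun s => LmA m ψ lam s * MelA m ψ' s) :=
      (gLd ψ h).mul (gZ ψ' h').1
    have hg : Differentiable ℂ (fun s => LmA m ψ' lam s * MelA m ψ s) :=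
      (gLd ψ' h').mul (gZ ψ h).1
    have hev : (fun s => LmA m ψ lam s * MelA m ψ' s) =ᶠ[𝓝 (((m : ℝ) + 3 : ℝ) : ℂ)]
        (fun s => LmA m ψ' lam s * MelA m ψ s) := by
      have hopen : IsOpen {s : ℂ | (m : ℝ) + 2 < s.re} :=
        isOpen_lt continuous_const Complex.continuous_re
      have hmem : (((m : ℝ) + 3 : ℝ) : ℂ) ∈ {s : ℂ | (m : ℝ) + 2 < s.re} := by
        simp only [Set.mem_ofPred_eq, Complex.ofReal_re]
        linarith
      filter_upwards [hopen.mem_nhds hmem] with s hs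
      have hs' : (m : ℝ) + 2 < s.re := hs
      rw [(gM ψ h s hs').2, (gM ψ' h' s hs').2]
      ring
    have hEq := AnalyticOnNhd.eq_of_eventuallyEq (𝕜 := ℂ)
      (fun z _ => hf.analyticAt z) (fun z _ => hg.analyticAt z) hev
    exact congrFun hEq s
  choose Ψ hW hne using hex
  set L : ℂ → ℂ := fun s => LmA m (Ψ s) lam s / MelA m (Ψ s) s with hL
  have hK : ∀ ψ : ℝ → ℂ, Wc m ψ lam → ∀ s : ℂ, LmA m ψ lam s = L s * MelA m ψ s := by
    intro ψ h s
    have h1 := hcross ψ (Ψ s) h (hW s) s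
    simp only [hL]
    rw [div_mul_eq_mul_div, eq_div_iff (hne s)]
    exact h1
  refine ⟨L, ⟨?_, ?_⟩, hK⟩
  · intro s0
    have hev : L =ᶠ[𝓝 s0] (fun s => LmA m (Ψ s0) lam s / MelA m (Ψ s0) s) := by
      have h1 : ∀ᶠ s in 𝓝 s0, MelA m (Ψ s0) s ≠ 0 :=
        ((gZ _ (hW s0)).1.continuous.continuousAt).eventually_ne (hne s0)
      filter_upwards [h1] with s hs
      rw [eq_div_iff hs]
      exact (hK _ (hW s0) s).symm
    refine DifferentiableAt.congr_of_eventuallyEq ?_ hev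
    exact ((gLd _ (hW s0)) s0).div ((gZ _ (hW s0)).1 s0) (hne s0)
  · intro s hs
    obtain ⟨h1, h2⟩ := gM (Ψ s) (hW s) s hs
    have h3 : L s = ∑' n : ℕ, if 1 ≤ n ∧ n.Coprime 1 then lam n * (n : ℂ) ^ (-s) else 0 := by
      simp only [hL]
      rw [h2, mul_div_assoc, div_self (hne s), mul_one]
    rw [h3]
    exact h1.hasSum

end Pool.Agent.H17.GA.GLA
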